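import Pool.Agent.Lib.MP_d0893a_co.KK.Grid2
import Pool.Agent.Lib.MP_d0893a_co.CubeRed

/-!
# Density increment for small near-isoperimetric subsets of the grid: Q1 holds
(problem MP_d0893a_co)

For every `L > 0` there are `L' > 0` and `δ > 0` such that for all `k, n ≥ 1` every `A ⊆ [k]^n` of
measure `α ≤ 1/2` with `|∂A| ≤ L m(A)` has density at least `(1 + δ) α` on a cartesian product set
of measure at least `α ^ L'`.
-/

open Pool.Agent.Grid

namespace Pool.Agent.Results.MP_d0893a_co.FullAnswer

/-- Q1 is true, for all side lengths. -/
theorem result : DensityIncrement Set.univ := cube_reduction.1 KK.dens2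

end Pool.Agent.Results.MP_d0893a_co.FullAnswer
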